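import Pool.Agent.Y191.LcRam
import Pool.Agent.Y191.DimGe
import Pool.Agent.TH585.SV.Fib9

/-!
Pairs with a linear system with powerful members, whose fibres correspond to moving log canonical
arrangements.
-/

set_option autoImplicit false
set_option linter.overlappingInstances false
set_option linter.unusedSectionVars false

open FF Pool.Agent.W602.GT Pool.Agent.W603.LV Pool.Agent.TH585.SV Pool.Agent.W619.PQ
open Pool.Agent.Y172 Pool.Agent.Y191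

namespace Pool.Agent.V11322.LF

section

variable {K : Type} [Field K] [Algebra ℂ K] {d e k n q c lam : ℕ}

theorem trdeg_over {L : IntermediateField ℂ K} (hL : Algebra.trdeg ℂ L = d)
    (hK : Algebra.trdeg ℂ K = (d + e : ℕ)) : Algebra.trdeg L K = e := by
  have h1 := trdeg_add_eq ℂ L (A := K)
  rw [hL, hK] at h1
  push_cast at h1
  rw [add_comm, add_comm (d : Cardinal)] at h1
  exact (Cardinal.add_right_inj_of_lt_aleph0 (Cardinal.natCast_lt_aleph0 (n := d))).mp h1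

/-- products of the forms of the base and of forms along the fibres, for a pair -/
theorem lin_pair (hd : 1 ≤ d) (hdk : d + k = n) (hK : Algebra.trdeg ℂ K = (d + e : ℕ))
    {V : Submodule ℂ K} (hL : Algebra.trdeg ℂ (rf V) = d)
    {φ : Fin q → K} (hφ0 : ∀ i, φ i ≠ 0) (hφ : Submodule.span ℂ (Set.range φ) = V)
    {γ : Fin q → Fin c} (hγ : Dcp n V φ γ) (hc : ∀ γ' : Fin q → Fin (c + 1), ¬ Dcp n V φ γ')
    {R : ℕ} (hR : R + c = n + 3 ∨
      (c = 1 ∧ (∃ τ : Fin (n + 3) → Fin q, ∀ i j, i ≠ j → ∀ t : ℂ, φ (τ i) ≠ t • φ (τ j)) ∧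
        R = n + 1))
    (X : Set (Place ℂ K)) (Δ : Place ℂ K → ℝ) (hΔ : ∀ P ∈ X, 0 ≤ Δ P) {s : ℝ}
    (hs : (R : ℝ) * ((k + 1) * (k + 2)) ≤ 2 * s)
    (h : ∀ P ∈ X, ∀ a : ℤ, (∀ f ∈ V, f = 0 ∨ a ≤ P.ord f) →
      (∃ f ∈ V, f ≠ 0 ∧ P.ord f = a) → (∃ i, P.ord (φ i) ≠ a) →
      ∃ i i', γ i' = γ i ∧ s * (1 - Δ P) ≤ ((P.ord (φ i) - P.ord (φ i') : ℤ) : ℝ))
    (hfib : ∀ δ₂ : Place ℂ K → ℝ, (∀ P ∈ X, 0 ≤ δ₂ P) →
      (∀ P, (∀ f ∈ rf V, f ≠ 0 → P.ord f = 0) → δ₂ P = Δ P) →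
      ∃ M : ℕ, 0 < M ∧ ∃ θ : Fin (lam + 1) → (Fin e → Derivation (rf V) K K) → K,
        (∀ b, FibSec (d + e) M X δ₂ (rf V) (θ b)) ∧ ∃ G, θ 0 G ≠ 0 ∧
          AlgebraicIndependent (rf V) (fun i : Fin lam => θ i.succ G / θ 0 G)) :
    KodairaGe (d + e) X Δ lam ∧
      ∀ κ : ℕ, κ + c = d + 1 → (R : ℝ) * ((k + 1) * (k + 2)) < 2 * s →
        KodairaGe (d + e) X Δ (κ + lam) := by
  classical
  obtain ⟨tr, htr⟩ : ∃ tr : Place ℂ K → Prop, ∀ P, tr P ↔ ∀ f ∈ rf V, f ≠ 0 → P.ord f = 0 :=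
    ⟨_, fun _ => Iff.rfl⟩
  obtain ⟨M, hM, θ, hθ, hne⟩ := hfib (fun P => if tr P then Δ P else 0) (fun P hP => by
    change 0 ≤ if tr P then Δ P else 0
    split_ifs
    · exact hΔ P hP
    · exact le_rfl) (fun P hP => if_pos ((htr P).2 hP))
  have hmem : ∀ i, φ i ∈ V := fun i => by
    rw [← hφ]
    exact Submodule.subset_span ⟨i, rfl⟩
  obtain ⟨h1, h2⟩ := lin_fib (k := k) (lam := lam) hd hdk hK hL hφ0 hφ hγ hc hR X
    (fun P => if tr P then 0 else Δ P) (fun P => if tr P then Δ P else 0) Δ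
    (fun P hP => by
      change 0 ≤ if tr P then 0 else Δ P
      split_ifs
      · exact le_rfl
      · exact hΔ P hP)
    (fun P _ => by
      change (if tr P then 0 else Δ P) + (if tr P then Δ P else 0) ≤ Δ P
      split_ifs <;> simp)
    hs (fun P hP _ a ha hb hi => by
      change ∃ i i', γ i' = γ i ∧ s * (1 - if tr P then 0 else Δ P) ≤
        ((P.ord (φ i) - P.ord (φ i') : ℤ) : ℝ)
      by_cases ht : tr P
      · exfalso
        obtain ⟨i, hi⟩ := hi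
        obtain ⟨f, hf, hf0, hfa⟩ := hb
        apply hi
        have h3 : P.ord (φ i / f) = 0 := (htr P).1 ht _
          (IntermediateField.subset_adjoin ℂ _ ⟨φ i, hmem i, f, hf, rfl⟩)
          (div_ne_zero (hφ0 i) hf0)
        rw [P.ord_div (hφ0 i) hf0, hfa] at h3
        omega
      · rw [if_neg ht]
        exact h P hP a ha hb hi) hM hθ hne
  exact ⟨h1, h2⟩

/-- **The theorem**: linear systems with powerful members and fibres which correspond to moving log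
canonical arrangements. -/
theorem lin_lc {N t : ℕ} {r q' : Fin t → ℕ} {x : Fin (N + 1) → K} {Δ : Place ℂ K → ℚ}
    (hx : NormalModel x) (hK : Algebra.trdeg ℂ K = (d + ∑ j, r j : ℕ)) (hΔ : Effective x Δ)
    (hd : 1 ≤ d) (hdk : d + k = n)
    {V : Submodule ℂ K} (hL : Algebra.trdeg ℂ (rf V) = d)
    {φ : Fin q → K} (hφ0 : ∀ i, φ i ≠ 0) (hφ : Submodule.span ℂ (Set.range φ) = V)
    {γ : Fin q → Fin c} (hγ : Dcp n V φ γ) (hc : ∀ γ' : Fin q → Fin (c + 1), ¬ Dcp n V φ γ')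
    {R : ℕ} (hR : R + c = n + 3 ∨
      (c = 1 ∧ (∃ τ : Fin (n + 3) → Fin q, ∀ i j, i ≠ j → ∀ t : ℂ, φ (τ i) ≠ t • φ (τ j)) ∧
        R = n + 1)) {s : ℝ}
    (hs : (R : ℝ) * ((k + 1) * (k + 2)) ≤ 2 * s)
    (h : ∀ P, IsPrimeDivisor x P → ∀ a : ℤ, (∀ f ∈ V, f = 0 ∨ a ≤ P.ord f) →
      (∃ f ∈ V, f ≠ 0 ∧ P.ord f = a) → (∃ i, P.ord (φ i) ≠ a) →
      ∃ i i', γ i' = γ i ∧ s * (1 - Δ P) ≤ ((P.ord (φ i) - P.ord (φ i') : ℤ) : ℝ))
    {w : ∀ j, Fin (q' j) → ℚ} (hw : ∀ j, 1 ≤ r j ∧ ∀ i, 0 ≤ w j i ∧ w j i ≤ 1)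
    {K' : Type} [Field K'] [Algebra ℂ K'] [Algebra K K'] [IsScalarTower ℂ K K']
    [FiniteDimensional K K'] {A : ∀ j, Fin (q' j) → Fin (r j + 1) → K'}
    {u : (Σ j, Fin (r j)) → K'}
    (hA : LcArr (upF K' (rf V)) A w) (hu : IsTranscendenceBasis (upF K' (rf V)) u)
    (hH : LcHor (rf V) A u w {P | IsPrimeDivisor x P} (fun P => (Δ P : ℝ)))
    (hC : Cor x (d + ∑ j, r j) Δ (upF K' (rf V)) A u w) :
    ((∃ j, ∑ i, w j i < r j + 1) → kodairaDim x (d + ∑ j, r j) Δ = ⊥ ∧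
      ∀ A, Effective x A → numericalDim x (d + ∑ j, r j) Δ A = ⊥) ∧
    ∀ lam : ℕ, (∀ j, (r j + 1 : ℚ) ≤ ∑ i, w j i) →
      (∃ κ : Fin lam → Σ j, Fin (r j), Function.Injective κ ∧
        ∀ i, (r (κ i).1 + 1 : ℚ) < ∑ i', w (κ i).1 i') →
      ((lam : ℕ) : WithBot ℕ) ≤ kodairaDim x (d + ∑ j, r j) Δ ∧
      ((R : ℝ) * ((k + 1) * (k + 2)) < 2 * s →
        (∀ κ : ℕ, κ + c = d + 1 →
          ((κ + lam : ℕ) : WithBot ℕ) ≤ kodairaDim x (d + ∑ j, r j) Δ) ∧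
        (c = 1 → ∑ j, r j = lam + ∑ j, (if ∑ i, w j i = r j + 1 then r j else 0) →
          kodairaDim x (d + ∑ j, r j) Δ = ((d + lam : ℕ) : WithBot ℕ) ∧
          ∀ A, Effective x A → Integral x A →
            numericalDim x (d + ∑ j, r j) Δ A = ((d + lam : ℕ) : EReal))) := by
  obtain ⟨h1, h2⟩ := lc_ab hx hK hΔ hA.1 hu (fun j => (hw j).1)
    (fun j i => ((hw j).2 i).1) (fun j i => ((hw j).2 i).2) hC
  refine ⟨h1, fun lam hws hκ => ?_⟩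
  obtain ⟨κ, hκ1, hκ2⟩ := hκ
  obtain ⟨h3, h4⟩ := lin_pair (lam := lam) hd hdk hK hL hφ0 hφ hγ hc hR {P | IsPrimeDivisor x P}
    (fun P => (Δ P : ℝ)) (fun P hP => by exact_mod_cast hΔ.1 P hP) hs
    (fun P hP a ha hb hi => h P hP a ha hb hi) (fun δ₂ h3 h4 =>
      lc_low (trdeg_over hL hK) hA finSigmaFinEquiv hu (fun j i => ((hw j).2 i).1) hws
        hκ1 hκ2 h3 (fun P hP htr Q ε hQ c' e he => by
          rw [h4 P htr]
          exact hH P hP htr Q ε hQ c' e he))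
  have hnv : ∀ l : ℕ, KodairaGe (d + ∑ j, r j) {P | IsPrimeDivisor x P} (fun P => (Δ P : ℝ)) l →
      (l : WithBot ℕ) ≤ kodairaDim x (d + ∑ j, r j) Δ := fun l hl =>
    lc_nv hx hK hΔ hA.1 hu (fun j => (hw j).1) (fun j i => ((hw j).2 i).1)
      (fun j i => ((hw j).2 i).2) hC hws (by omega) hl
  refine ⟨hnv _ h3, fun hlt => ⟨fun κ' hκ' => hnv _ (h4 κ' hκ' hlt), fun hc1 hlam => ?_⟩⟩
  refine h2 (d + lam) hws (by omega) ?_
  exact h4 d (by omega) hlt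

end

end Pool.Agent.V11322.LF
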