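import Pool.Agent.Y191.LiftDet
import Pool.Agent.Y220.OG.LgtA
import Pool.Agent.V11322.LF.Fib

/-!
Forms along fibres which correspond to a fixed variety.
-/

set_option autoImplicit false
set_option linter.overlappingInstances false
set_option linter.unusedSectionVars false
set_option linter.unusedTactic false

open FF Pool.Agent.W602.GT Pool.Agent.W603.LV Pool.Agent.TH585.SV Pool.Agent.Y172
open Pool.Agent.Y191 hiding jac
open Pool.Agent.Y220.OG Pool.Agent.TH143.GT

namespace Pool.Agent.V11322.LF

section indep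

open Cardinal in
/-- functions on the fixed variety which are independent remain independent over the base -/
theorem indep_over {k F K' : Type} [Field k] [Field F] [Field K'] [Algebra k F] [Algebra k K']
    [Algebra F K'] [IsScalarTower k F K'] {U : IntermediateField k K'} {e : ℕ} {t : Fin e → F}
    (ht : IsTranscendenceBasis k t)
    (htU : IsTranscendenceBasis U (fun j => algebraMap F K' (t j))) {lam : ℕ} {g : Fin lam → F}
    (hg : AlgebraicIndependent k g) : AlgebraicIndependent U (fun i => algebraMap F K' (g i)) := by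
  classical
  obtain ⟨B, hgB, hB⟩ := exists_isTranscendenceBasis_superset (R := k) (A := F) (s := Set.range g)
    hg.coe_range
  have hcard : #B = (e : Cardinal) := by
    rw [hB.cardinalMk_eq_trdeg, ← ht.cardinalMk_eq_trdeg, mk_fin]
  have hfin : Finite B := by
    rw [← lt_aleph0_iff_finite, hcard]
    exact natCast_lt_aleph0
  let x : B → K' := fun b => algebraMap F K' b
  have hst : Set.range (fun j => algebraMap F K' (t j)) ⊆
      (AlgebraicIndependent.matroid U K').closure (Set.range x) := by
    rintro _ ⟨j, rfl⟩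
    rw [AlgebraicIndependent.matroid_closure_eq]
    change IsAlgebraic (Algebra.adjoin U (Set.range x)) (algebraMap F K' (t j))
    have h1 : IsAlgebraic (Algebra.adjoin k (Set.range ((↑) : B → F))) (t j) :=
      hB.isAlgebraic.isAlgebraic (t j)
    have hmem : ∀ z ∈ Algebra.adjoin k (Set.range ((↑) : B → F)),
        algebraMap F K' z ∈ Algebra.adjoin U (Set.range x) := by
      intro z hz
      induction hz using Algebra.adjoin_induction with
      | mem z hz =>
        obtain ⟨b, rfl⟩ := hz
        exact Algebra.subset_adjoin ⟨b, rfl⟩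
      | algebraMap r =>
        rw [← IsScalarTower.algebraMap_apply k F K']
        have h3 : algebraMap k K' r = algebraMap U K' (algebraMap k U r) := rfl
        rw [h3]
        exact Subalgebra.algebraMap_mem _ _
      | add a b _ _ ha hb =>
        rw [map_add]
        exact add_mem ha hb
      | mul a b _ _ ha hb =>
        rw [map_mul]
        exact mul_mem ha hb
    let f : Algebra.adjoin k (Set.range ((↑) : B → F)) →+* Algebra.adjoin U (Set.range x) :=
      ((algebraMap F K').comp (Algebra.adjoin k (Set.range ((↑) : B → F))).subtype).codRestrict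
        (Algebra.adjoin U (Set.range x)) fun z => hmem _ z.2
    exact h1.ringHom_of_comp_eq f (algebraMap F K') (by
      intro a b hab
      have h3 := congrArg (fun z : Algebra.adjoin U (Set.range x) => (z : K')) hab
      exact Subtype.ext ((algebraMap F K').injective h3)) rfl
  have hsp : (AlgebraicIndependent.matroid U K').Spanning
      (Set.range (fun j => algebraMap F K' (t j))) :=
    AlgebraicIndependent.matroid_spanning_iff.2 htU.isAlgebraic
  have hsp' : (AlgebraicIndependent.matroid U K').Spanning (Set.range x) := by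
    rw [Matroid.spanning_iff_ground_subset_closure (by
      rw [AlgebraicIndependent.matroid_e]
      exact Set.subset_univ _)]
    have h1 := (AlgebraicIndependent.matroid U K').closure_subset_closure_of_subset_closure hst
    rw [hsp.closure_eq] at h1
    exact h1
  have hal : Algebra.IsAlgebraic (Algebra.adjoin U (Set.range x)) K' :=
    AlgebraicIndependent.matroid_spanning_iff.1 hsp'
  have hx : IsTranscendenceBasis U x := by
    refine Algebra.IsAlgebraic.isTranscendenceBasis_of_le_trdeg_of_finite U x ?_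
    rw [hcard, ← htU.cardinalMk_eq_trdeg, mk_fin]
  exact hx.1.comp (fun i => (⟨g i, hgB ⟨i, rfl⟩⟩ : B)) fun i j hij =>
    hg.injective (congrArg Subtype.val hij)

end indep

section est

variable {F K' : Type} [Field F] [Algebra ℂ F] [Field K'] [Algebra ℂ K'] [Algebra F K']
  [IsScalarTower ℂ F K'] {e m : ℕ}

/-- the value of the forms on logarithmic vector fields, at a place over a place of `F` -/
theorem fix_log [Algebra.EssFiniteType ℂ F] (hF : Algebra.trdeg ℂ F = e) (hm : 0 < m)
    {t : Fin e → F} (ht : IsTranscendenceBasis ℂ t) {f : F} {δF : Place ℂ F → ℝ}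
    (hf : ∀ v : Place ℂ F, Divisorial e v → ∀ D : Fin e → Derivation ℂ F F,
      (∀ i, DerReg v (D i)) → jac t D ^ m * f = 0 ∨
        -(m * δF v) ≤ (v.ord (jac t D ^ m * f) : ℝ))
    {Q : Place ℂ K'} {v : Place ℂ F} {e' : ℕ} (hov : Over Q v e') (hv : Divisorial e v)
    {E : Fin e → Derivation ℂ K' K'} (hE : ∀ i, DerLog Q (E i)) :
    jac (fun j => algebraMap F K' (t j)) E ^ m * algebraMap F K' f = 0 ∨
      (m : ℝ) * (e' * (1 - δF v)) ≤
        (Q.ord (jac (fun j => algebraMap F K' (t j)) E ^ m * algebraMap F K' f) : ℝ) := by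
  obtain ⟨κ, ⟨D1, hD1, hJ1, ho1⟩, -, hest⟩ := kap hF t ht v hv
  have h1 := (hest K' Q e' hov E).2 hE
  by_cases hf0 : f = 0
  · left
    rw [hf0, map_zero, mul_zero]
  by_cases hj : jac (fun j => algebraMap F K' (t j)) E = 0
  · left
    rw [hj, zero_pow hm.ne', zero_mul]
  right
  have hf1 : algebraMap F K' f ≠ 0 := (map_ne_zero _).2 hf0
  have h2 := h1.resolve_left hj
  have h3 := (hf v hv D1 hD1).resolve_left (mul_ne_zero (pow_ne_zero _ hJ1) hf0)
  rw [v.ord_mul (pow_ne_zero _ hJ1) hf0, v.ord_pow, ho1] at h3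
  rw [Q.ord_mul (pow_ne_zero _ hj) hf1, Q.ord_pow, hov.2]
  have h2' : (e' : ℝ) * (κ + 1) ≤ Q.ord (jac (fun j => algebraMap F K' (t j)) E) := by
    exact_mod_cast h2
  push_cast at h3 ⊢
  have hm' : (0 : ℝ) ≤ m := Nat.cast_nonneg _
  have he' : (0 : ℝ) ≤ e' := Nat.cast_nonneg _
  have h4 := mul_le_mul_of_nonneg_left h2' hm'
  have h5 := mul_le_mul_of_nonneg_left h3 he'
  nlinarith

/-- the value of the forms on logarithmic vector fields, at a place which is trivial on `F` -/
theorem fix_triv {t : Fin e → F} {f : F} {Q : Place ℂ K'}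
    (hQ : ∀ g : F, Q.ord (algebraMap F K' g) = 0)
    {E : Fin e → Derivation ℂ K' K'} (hE : ∀ i, DerLog Q (E i)) :
    Ge Q 0 (jac (fun j => algebraMap F K' (t j)) E ^ m * algebraMap F K' f) := by
  have h1 : Ge Q 0 (jac (fun j => algebraMap F K' (t j)) E) := by
    have h2 := ge_det_col Q (Matrix.of fun i j => E i (algebraMap F K' (t j))) (fun _ => 0)
      (fun i j => ge_der_log (hE i) (Or.inr (hQ _).ge))
    rw [Finset.sum_const_zero] at h2
    exact h2
  have h2 : Ge Q 0 (algebraMap F K' f) := Or.inr (hQ _).ge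
  have h3 := (h1.pow m).mul h2
  rwa [mul_zero, add_zero] at h3

/-- the same for a place which is trivial on the base -/
theorem fix_triv' {U : IntermediateField ℂ K'} (htr : Algebra.trdeg U K' = e) {t : Fin e → F}
    {f : F} {Q : Place ℂ K'} (hQ : ∀ g : F, Q.ord (algebraMap F K' g) = 0)
    (hU : ∀ z ∈ U, z ≠ 0 → Q.ord z = 0)
    {E : Fin e → Derivation ℂ K' K'} (hE : ∀ i, DerLog Q (E i)) (hk : ∀ i, Kills (E i) U) :
    Ge Q m (jac (fun j => algebraMap F K' (t j)) E ^ m * algebraMap F K' f) := by
  have h1 : Ge Q 1 (jac (fun j => algebraMap F K' (t j)) E) :=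
    det_log_unit htr hU hE hk fun l => Or.inr (hQ _).ge
  have h2 : Ge Q 0 (algebraMap F K' f) := Or.inr (hQ _).ge
  have h3 := (h1.pow m).mul h2
  rwa [mul_one, add_zero] at h3

end est

section

variable {K K' : Type} [Field K] [Field K'] [Algebra ℂ K] [Algebra ℂ K'] [Algebra K K']
  [IsScalarTower ℂ K K'] {L : IntermediateField ℂ K} [FiniteDimensional K K']
  {F : Type} [Field F] [Algebra ℂ F] [Algebra F K'] [IsScalarTower ℂ F K']

/-- **The forms along fibres which correspond to a fixed variety.** -/
theorem fix_low [Algebra.EssFiniteType ℂ F] {N e lam m : ℕ} (hm : 0 < m)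
    (hK : Algebra.trdeg ℂ K = N) (hL : Algebra.trdeg L K = e) {t : Fin e → F}
    (ht : IsTranscendenceBasis ℂ t)
    (htU : IsTranscendenceBasis (upF K' L) (fun j => algebraMap F K' (t j)))
    {δF : Place ℂ F → ℝ} (hδF : ∀ v, Divisorial e v → δF v ≤ 1)
    {ω : Fin (lam + 1) → (Fin e → Derivation ℂ F F) → F} (hpl : ∀ b, IsPluri m (ω b))
    (hω : ∀ b, ∀ v : Place ℂ F, Divisorial e v → ∀ D : Fin e → Derivation ℂ F F,
      (∀ i, DerReg v (D i)) → ω b D = 0 ∨ -(m * δF v) ≤ (v.ord (ω b D) : ℝ))
    (hne : ∃ D, ω 0 D ≠ 0 ∧ AlgebraicIndependent ℂ (fun i : Fin lam => ω i.succ D / ω 0 D))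
    {X : Set (Place ℂ K)} {δ : Place ℂ K → ℝ} (hδ : ∀ P ∈ X, 0 ≤ δ P)
    (hH1 : ∀ P ∈ X, (∀ f ∈ L, f ≠ 0 → P.ord f = 0) → ∀ (Q : Place ℂ K') (ε : ℕ), Over Q P ε →
      (∀ g : F, Q.ord (algebraMap F K' g) = 0) → (ε : ℝ) * (1 - δ P) ≤ 1)
    (hH2 : ∀ P ∈ X, (∀ f ∈ L, f ≠ 0 → P.ord f = 0) → ∀ (Q : Place ℂ K') (ε : ℕ), Over Q P ε →
      ∀ (v : Place ℂ F) (e' : ℕ), Over Q v e' → (ε : ℝ) * (1 - δ P) ≤ e' * (1 - δF v)) :
    ∃ M' : ℕ, 0 < M' ∧ ∃ θ : Fin (lam + 1) → (Fin e → Derivation L K K) → K,
      (∀ b, FibSec N M' X δ L (θ b)) ∧ ∃ G, θ 0 G ≠ 0 ∧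
        AlgebraicIndependent L (fun i : Fin lam => θ i.succ G / θ 0 G) := by
  classical
  have hcU : CharZero (upF K' L) :=
    charZero_of_injective_algebraMap (algebraMap ℂ (upF K' L)).injective
  have hcF : CharZero F := charZero_of_injective_algebraMap (algebraMap ℂ F).injective
  have hF : Algebra.trdeg ℂ F = e := by
    rw [← ht.cardinalMk_eq_trdeg, Cardinal.mk_fin]
  have hKN : Algebra.trdeg ℂ K' = N := Pool.Agent.Y172.trdeg_up (K := K) hK
  -- the coefficients
  choose Et hEt using fun i => Pool.Agent.W602.GT.exists_der (L := ℂ) t ht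
    (fun j => if i = j then (1 : F) else 0)
  obtain ⟨f, hf⟩ : ∃ f : Fin (lam + 1) → F, ∀ b, f b = ω b Et := ⟨_, fun _ => rfl⟩
  have hωf : ∀ b D, ω b D = jac t D ^ m * f b := by
    intro b D
    rw [hf]
    exact pluri_coord ht hEt (hpl b) D
  have hform : ∀ b, ∀ v : Place ℂ F, Divisorial e v → ∀ D : Fin e → Derivation ℂ F F,
      (∀ i, DerReg v (D i)) → jac t D ^ m * f b = 0 ∨
        -(m * δF v) ≤ (v.ord (jac t D ^ m * f b) : ℝ) := by
    intro b v hv D hD
    rw [← hωf]
    exact hω b v hv D hD
  obtain ⟨D0, hD0, hind⟩ := hne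
  have hJ0 : jac t D0 ^ m ≠ 0 := by
    intro h0
    apply hD0
    rw [hωf, h0, zero_mul]
  have hf0 : f 0 ≠ 0 := by
    intro h0
    apply hD0
    rw [hωf, h0, mul_zero]
  have hind' : AlgebraicIndependent ℂ (fun i : Fin lam => f i.succ / f 0) := by
    have h1 : (fun i : Fin lam => ω i.succ D0 / ω 0 D0) = fun i : Fin lam => f i.succ / f 0 := by
      funext i
      rw [hωf, hωf, mul_div_mul_left _ _ hJ0]
    rwa [h1] at hind
  have hindU := indep_over ht htU hind'
  -- the forms over the extension
  let θ' : Fin (lam + 1) → (Fin e → Derivation (upF K' L) K' K') → K' := fun b G =>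
    (Matrix.of fun i j => G i (algebraMap F K' (t j))).det ^ m * algebraMap F K' (f b)
  have hθ' : ∀ b G, θ' b G = jac (fun j => algebraMap F K' (t j))
      (fun i => (G i).restrictScalars ℂ) ^ m * algebraMap F K' (f b) := fun b G => rfl
  refine push_gen (N := N) (M := m) (lam := lam) (L := L) (K' := K') hm hL (θ' := θ')
    (fun b => ?_) ?_ ?_
  · intro A D
    have e1 : (Matrix.of fun i j => (∑ l, A i l • D l) (algebraMap F K' (t j))) =
        A * Matrix.of fun i j => D i (algebraMap F K' (t j)) := by
      ext i j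
      rw [Matrix.of_apply, Matrix.mul_apply, sum_smul_apply]
      rfl
    change (Matrix.of fun i j => (∑ l, A i l • D l) (algebraMap F K' (t j))).det ^ m *
      algebraMap F K' (f b) = _
    rw [e1, Matrix.det_mul, mul_pow, mul_assoc]
  · intro P hP hPd G G' hG hG' Q ε hQ b
    have hdQ : Divisorial N Q := divisorial_up hQ hPd
    have hm0 : (0 : ℝ) ≤ m := Nat.cast_nonneg _
    have hε0 : (0 : ℝ) ≤ ε := Nat.cast_nonneg _
    have hover : (¬ ∀ g : F, Q.ord (algebraMap F K' g) = 0) →
        ∃ (e' : ℕ) (v : Place ℂ F), Over Q v e' ∧ Divisorial e v := by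
      intro h
      push Not at h
      obtain ⟨e', v, hov⟩ := exists_over (K := F) Q h
      exact ⟨e', v, hov, Pool.Agent.W419.PG.main ℂ F K' e N v Q e' hF hKN hov hdQ⟩
    by_cases htr : ∀ f ∈ L, f ≠ 0 → P.ord f = 0
    · -- the horizontal divisors
      obtain ⟨M, Nm, hlog, hMN, hM⟩ := reg_to_log2 (D := fun i => (G i).restrictScalars ℂ)
        (P := P) (fun i f hf => hG i f hf)
      obtain ⟨E', hE'⟩ : ∃ E' : Fin e → Derivation ℂ K' K', E' = fun i =>
        ∑ j, algebraMap K K' (Nm i j) • (G' j).restrictScalars ℂ := ⟨_, rfl⟩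
      have hEv : ∀ i z, E' i z = ∑ j, algebraMap K K' (Nm i j) * G' j z := by
        intro i z
        rw [hE', sum_smul_apply]
        rfl
      have hElift : ∀ i z, E' i (algebraMap K K' z) =
          algebraMap K K' ((∑ j, Nm i j • (G j).restrictScalars ℂ : Derivation ℂ K K) z) := by
        intro i z
        rw [hEv, sum_smul_apply, map_sum]
        refine Finset.sum_congr rfl fun j _ => ?_
        rw [hG', map_mul]
        rfl
      have hElog : ∀ i, DerLog Q (E' i) := fun i => lift_log hQ (hlog i) (hElift i)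
      have hkill : ∀ i, Kills (E' i) (upF K' L) := by
        intro i z hz
        rw [hEv]
        refine Finset.sum_eq_zero fun j _ => ?_
        have h1 : G' j z = 0 := (G' j).map_algebraMap (⟨z, hz⟩ : upF K' L)
        rw [h1, mul_zero]
      have hGE : ∀ i z, G' i z = ∑ j, algebraMap K K' (M i j) * E' j z := by
        intro i z
        simp only [hEv, Finset.mul_sum]
        rw [Finset.sum_comm]
        have h1 : ∀ l, ∑ j, algebraMap K K' (M i j) * (algebraMap K K' (Nm j l) * G' l z) =
            (if i = l then 1 else 0) * G' l z := by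
          intro l
          have h2 := congrFun (congrFun hMN i) l
          rw [Matrix.mul_apply, Matrix.one_apply] at h2
          have h3 := congrArg (algebraMap K K') h2
          rw [map_sum, apply_ite (algebraMap K K'), map_one, map_zero] at h3
          rw [← h3, Finset.sum_mul]
          refine Finset.sum_congr rfl fun j _ => ?_
          rw [map_mul, mul_assoc]
        simp only [h1]
        simp
      have hdet : jac (fun j => algebraMap F K' (t j)) (fun i => (G' i).restrictScalars ℂ) =
          algebraMap K K' M.det * jac (fun j => algebraMap F K' (t j)) E' := by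
        unfold jac
        rw [RingHom.map_det, ← Matrix.det_mul]
        congr 1
        ext i l
        rw [Matrix.mul_apply, Matrix.of_apply]
        change G' i _ = _
        rw [hGE]
        refine Finset.sum_congr rfl fun j _ => ?_
        rw [RingHom.mapMatrix_apply, Matrix.map_apply, Matrix.of_apply]
      have hMge : Ge Q (-ε) (algebraMap K K' M.det) := by
        have h1 := (Pool.Agent.Y172.over_ge hQ).2 hM
        rwa [mul_neg, mul_one] at h1
      have hup : ∀ z ∈ upF K' L, z ≠ 0 → Q.ord z = 0 := by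
        intro z hz hz0
        obtain ⟨a, ha, rfl⟩ := mem_upF.1 hz
        have ha0 : a ≠ 0 := fun h => hz0 (by rw [h, map_zero])
        rw [hQ.2, htr a ha ha0, mul_zero]
      rw [hθ', hdet, mul_pow, mul_assoc]
      obtain ⟨Z, hZ⟩ : ∃ Z, Z = jac (fun j => algebraMap F K' (t j)) E' ^ m *
        algebraMap F K' (f b) := ⟨_, rfl⟩
      rw [← hZ]
      -- the conclusion from a bound
      have hfin : ∀ r : ℝ, (ε : ℝ) * (1 - δ P) ≤ r → (Z = 0 ∨ (m : ℝ) * r ≤ Q.ord Z) →
          algebraMap K K' M.det ^ m * Z = 0 ∨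
            -((m : ℝ) * (ε * δ P)) ≤ (Q.ord (algebraMap K K' M.det ^ m * Z) : ℝ) := by
        intro r hr hZr
        rcases hZr with hZr | hZr
        · left
          rw [hZr, mul_zero]
        by_cases h0 : algebraMap K K' M.det ^ m * Z = 0
        · exact Or.inl h0
        right
        have h1 : algebraMap K K' M.det ^ m ≠ 0 := left_ne_zero_of_mul h0
        have h2 : Z ≠ 0 := right_ne_zero_of_mul h0
        rw [Q.ord_mul h1 h2, Q.ord_pow]
        have h3 : -(ε : ℤ) ≤ Q.ord (algebraMap K K' M.det) :=
          hMge.resolve_left fun h => h1 (by rw [h, zero_pow hm.ne'])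
        have h4 : -(ε : ℝ) ≤ Q.ord (algebraMap K K' M.det) := by exact_mod_cast h3
        push_cast
        have h5 := mul_le_mul_of_nonneg_left h4 hm0
        have h6 := mul_le_mul_of_nonneg_left hr hm0
        nlinarith
      by_cases hQF : ∀ g : F, Q.ord (algebraMap F K' g) = 0
      · refine hfin 1 (hH1 P hP htr Q ε hQ hQF) ?_
        have h1 := fix_triv' (m := m) (t := t) (f := f b) (trdeg_upF (K' := K') hL) hQF hup
          hElog hkill
        rw [← hZ] at h1
        rcases h1 with h1 | h1
        · exact Or.inl h1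
        · right
          rw [mul_one]
          exact_mod_cast h1
      · obtain ⟨e', v, hov, hv⟩ := hover hQF
        refine hfin _ (hH2 P hP htr Q ε hQ v e' hov) ?_
        have h1 := fix_log hF hm ht (hform b) hov hv hElog
        rwa [← hZ] at h1
    · -- the vertical divisors
      have hlogQ : ∀ i, DerLog Q ((G' i).restrictScalars ℂ) := by
        intro i
        have h2 : DerLog P ((G i).restrictScalars ℂ) :=
          derLog_of_nontrivial (F := L) (fun z hz => (G i).map_algebraMap (⟨z, hz⟩ : L))
            (fun f hf => hG i f hf) htr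
        exact lift_log hQ h2 (fun f => hG' i f)
      have h4 := mul_nonneg hm0 (mul_nonneg hε0 (hδ P hP))
      rw [hθ']
      by_cases hQF : ∀ g : F, Q.ord (algebraMap F K' g) = 0
      · have h1 := fix_triv (m := m) (t := t) (f := f b) hQF hlogQ
        rcases h1 with h1 | h1
        · exact Or.inl h1
        · right
          have h3 : (0 : ℝ) ≤ (Q.ord (jac (fun j => algebraMap F K' (t j))
            (fun i => (G' i).restrictScalars ℂ) ^ m * algebraMap F K' (f b)) : ℝ) := by
            exact_mod_cast h1
          linarith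
      · obtain ⟨e', v, hov, hv⟩ := hover hQF
        have h1 := fix_log hF hm ht (hform b) hov hv hlogQ
        rcases h1 with h1 | h1
        · exact Or.inl h1
        · right
          have h3 : (0 : ℝ) ≤ m * (e' * (1 - δF v)) :=
            mul_nonneg hm0 (mul_nonneg (Nat.cast_nonneg _) (by linarith [hδF v hv]))
          linarith
  · choose Gt hGt using fun i => Pool.Agent.W602.GT.exists_der (L := upF K' L) _ htU
      (fun j => if i = j then (1 : K') else 0)
    have h1 : (Matrix.of fun i j => Gt i (algebraMap F K' (t j)) :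
        Matrix (Fin e) (Fin e) K').det = 1 := by
      have h2 : (Matrix.of fun i j => Gt i (algebraMap F K' (t j)) :
          Matrix (Fin e) (Fin e) K') = 1 := by
        ext i j
        rw [Matrix.of_apply, hGt, Matrix.one_apply]
      rw [h2, Matrix.det_one]
    have h2 : ∀ b, θ' b Gt = algebraMap F K' (f b) := by
      intro b
      change (Matrix.of fun i j => Gt i (algebraMap F K' (t j))).det ^ m * _ = _
      rw [h1, one_pow, one_mul]
    refine ⟨Gt, ?_, ?_⟩
    · rw [h2]
      exact (map_ne_zero _).2 hf0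
    · simp only [h2]
      convert hindU using 1
      funext i
      rw [map_div₀]

end

end Pool.Agent.V11322.LF
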