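import Pool.Agent.V11322.LF.Fix

/-!
Pairs with a linear system with powerful members, whose fibres correspond to a fixed variety.
-/

set_option autoImplicit false
set_option linter.overlappingInstances false
set_option linter.unusedSectionVars false

open FF Pool.Agent.W602.GT Pool.Agent.W603.LV Pool.Agent.TH585.SV
open Pool.Agent.Y172 Pool.Agent.TH766.MC
open Pool.Agent.Y191 hiding jac

namespace Pool.Agent.V11322.LF

variable {K : Type} [Field K] [Algebra ℂ K] {d e k n q c lam : ℕ}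

/-- **The theorem**: linear systems with powerful members and fibres which correspond to a fixed
variety. -/
theorem lin_fix (hd : 1 ≤ d) (hdk : d + k = n) (hK : Algebra.trdeg ℂ K = (d + e : ℕ))
    {V : Submodule ℂ K} (hL : Algebra.trdeg ℂ (rf V) = d)
    {φ : Fin q → K} (hφ0 : ∀ i, φ i ≠ 0) (hφ : Submodule.span ℂ (Set.range φ) = V)
    {γ : Fin q → Fin c} (hγ : Dcp n V φ γ) (hc : ∀ γ' : Fin q → Fin (c + 1), ¬ Dcp n V φ γ')
    {R : ℕ} (hR : R + c = n + 3 ∨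
      (c = 1 ∧ (∃ τ : Fin (n + 3) → Fin q, ∀ i j, i ≠ j → ∀ t : ℂ, φ (τ i) ≠ t • φ (τ j)) ∧
        R = n + 1))
    (X : Set (Place ℂ K)) (δ : Place ℂ K → ℝ) (hδ : ∀ P ∈ X, 0 ≤ δ P) {s : ℝ}
    (hs : (R : ℝ) * ((k + 1) * (k + 2)) ≤ 2 * s)
    (h : ∀ P ∈ X, Divisorial (d + e) P → ∀ a : ℤ, (∀ f ∈ V, f = 0 ∨ a ≤ P.ord f) →
      (∃ f ∈ V, f ≠ 0 ∧ P.ord f = a) → (∃ i, P.ord (φ i) ≠ a) →
      ∃ i i', γ i' = γ i ∧ s * (1 - δ P) ≤ ((P.ord (φ i) - P.ord (φ i') : ℤ) : ℝ))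
    {F : Type} [Field F] [Algebra ℂ F] [Algebra.EssFiniteType ℂ F]
    {δF : Place ℂ F → ℝ} (hδF : ∀ v, Divisorial e v → δF v ≤ 1)
    {m : ℕ} (hm : 0 < m) {ω : Fin (lam + 1) → (Fin e → Derivation ℂ F F) → F}
    (hω : ∀ b, PairSec e Set.univ δF m (ω b))
    (hne : ∃ D, ω 0 D ≠ 0 ∧ AlgebraicIndependent ℂ (fun i : Fin lam => ω i.succ D / ω 0 D))
    {K' : Type} [Field K'] [Algebra ℂ K'] [Algebra K K'] [IsScalarTower ℂ K K']
    [FiniteDimensional K K'] [Algebra F K'] [IsScalarTower ℂ F K'] {t : Fin e → F}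
    (ht : IsTranscendenceBasis ℂ t)
    (htU : IsTranscendenceBasis (upF K' (rf V)) (fun j => algebraMap F K' (t j)))
    (hH : ∀ P ∈ X, Divisorial (d + e) P → (∀ f ∈ rf V, f ≠ 0 → P.ord f = 0) →
      ∀ (Q : Place ℂ K') (ε : ℕ), Over Q P ε →
      ((∀ g : F, Q.ord (algebraMap F K' g) = 0) → (ε : ℝ) * (1 - δ P) ≤ 1) ∧
      ∀ (v : Place ℂ F) (e' : ℕ), Over Q v e' → (ε : ℝ) * (1 - δ P) ≤ e' * (1 - δF v)) :
    KodairaGe (d + e) X δ lam ∧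
      ∀ κ : ℕ, κ + c = d + 1 → (R : ℝ) * ((k + 1) * (k + 2)) < 2 * s →
        KodairaGe (d + e) X δ (κ + lam) := by
  classical
  obtain ⟨X', hX'⟩ : ∃ X' : Set (Place ℂ K), X' = {P | P ∈ X ∧ Divisorial (d + e) P} := ⟨_, rfl⟩
  have hmem : ∀ P, P ∈ X' ↔ P ∈ X ∧ Divisorial (d + e) P := fun P => by rw [hX']; rfl
  have hconv : ∀ κ, KodairaGe (d + e) X' δ κ → KodairaGe (d + e) X δ κ := by
    rintro κ ⟨N, hN, ω', h1, h2⟩
    exact ⟨N, hN, ω', fun j => ⟨(h1 j).1, fun P hP hPd D hD =>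
      (h1 j).2 P ((hmem P).2 ⟨hP, hPd⟩) hPd D hD⟩, h2⟩
  obtain ⟨h1, h2⟩ := lin_pair (lam := lam) hd hdk hK hL hφ0 hφ hγ hc hR X' δ
    (fun P hP => hδ P ((hmem P).1 hP).1) hs
    (fun P hP a ha hb hi => h P ((hmem P).1 hP).1 ((hmem P).1 hP).2 a ha hb hi)
    (fun δ₂ h3 h4 => fix_low (N := d + e) (X := X') (δ := δ₂) hm hK (trdeg_over hL hK) ht htU hδF
      (fun b => (hω b).1) (fun b v hv D hD => (hω b).2 v (Set.mem_univ _) hv D hD) hne h3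
      (fun P hP htr Q ε hQ hQF => by
        rw [h4 P htr]
        exact (hH P ((hmem P).1 hP).1 ((hmem P).1 hP).2 htr Q ε hQ).1 hQF)
      (fun P hP htr Q ε hQ v e' hov => by
        rw [h4 P htr]
        exact (hH P ((hmem P).1 hP).1 ((hmem P).1 hP).2 htr Q ε hQ).2 v e' hov))
  exact ⟨hconv _ h1, fun κ hκ hlt => hconv _ (h2 κ hκ hlt)⟩

end Pool.Agent.V11322.LF
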