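import Pool.Agent.Y191.Weak
import Pool.Agent.V11322.LF.Fib

/-!
Log canonical pairs with very affine fibres over the image of a linear system with powerful members.
-/

set_option autoImplicit false
set_option linter.unusedSectionVars false
set_option linter.unusedTactic false

open FF Pool.Agent.W602.GT Pool.Agent.W603.LV Pool.Agent.TH122.AB Pool.Agent.TH585.SV
open Pool.Agent.Y172 Pool.Agent.Y191

namespace Pool.Agent.V11322.LF

section

open Filter Topology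

theorem nu_le {h : ℕ → ℕ} {k C : ℕ} {I : Set ℕ} (hup : ∀ m ∈ I, 1 ≤ m → h m ≤ C * m ^ k) :
    limsup (fun m : ℕ => ENNReal.log (h m : ENNReal) / (Real.log m : EReal)) (atTop ⊓ 𝓟 I) ≤
      (k : EReal) := by
  have h2 : Tendsto (fun m : ℕ => (((k : ℝ) + Real.log (C + 1) / Real.log m : ℝ) : EReal)) atTop
      (𝓝 ((k : ℝ) : EReal)) := by
    refine (continuous_coe_real_ereal.tendsto _).comp ?_
    have h3 : Tendsto (fun m : ℕ => Real.log (C + 1) / Real.log m) atTop (𝓝 0) :=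
      Tendsto.const_div_atTop (Real.tendsto_log_atTop.comp tendsto_natCast_atTop_atTop) _
    simpa using h3.const_add (k : ℝ)
  have h3 : limsup (fun m : ℕ => (((k : ℝ) + Real.log (C + 1) / Real.log m : ℝ) : EReal))
      (atTop ⊓ 𝓟 I) ≤ (k : EReal) := by
    refine (limsup_le_limsup_of_le inf_le_left).trans ?_
    rw [h2.limsup_eq]
    exact le_of_eq rfl
  refine le_trans (limsup_le_limsup ?_) h3
  rw [EventuallyLE, eventually_inf_principal]
  filter_upwards [eventually_ge_atTop 2] with m hm hmI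
  have hm1 : (1 : ℝ) < m := by exact_mod_cast hm
  have hlog : 0 < Real.log m := Real.log_pos hm1
  have hlogE : (0 : EReal) < (Real.log m : EReal) := by exact_mod_cast hlog
  have h4 := hup m hmI (by omega)
  rcases Nat.eq_zero_or_pos (h m) with h0 | h0
  · rw [h0, Nat.cast_zero, ENNReal.log_zero, EReal.bot_div_of_pos_ne_top hlogE
      (EReal.coe_ne_top _)]
    exact bot_le
  · rw [log_natCast h0, ← EReal.coe_div]
    have h5 : Real.log (h m) / Real.log m ≤ (k : ℝ) + Real.log (C + 1) / Real.log m := by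
      rw [div_le_iff₀ hlog, add_mul, div_mul_cancel₀ _ hlog.ne', ← Real.log_pow,
        ← Real.log_mul (by positivity) (by positivity)]
      refine Real.log_le_log (by exact_mod_cast h0) ?_
      have h6 : (h m : ℝ) ≤ C * (m : ℝ) ^ k := by exact_mod_cast h4
      have h7 : (0 : ℝ) ≤ (m : ℝ) ^ k := by positivity
      nlinarith
    exact_mod_cast h5

end

variable {K : Type} [Field K] [Algebra ℂ K] {N : ℕ} {y : Fin (N + 1) → K} {n : ℕ}

theorem num_le {a : ℕ} {Δ : Place ℂ K → ℚ} {D : Fin n → Derivation ℂ K K} (hD : IsFrame D)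
    (hup : ∀ A, Effective y A → ∃ C : ℕ, ∀ m : ℕ, 1 ≤ m → ∀ (r : ℕ) (f : Fin r → K),
      LinearIndependent ℂ f → (∀ i, ∃ ω, Y172.IsSection y n m (m • Δ + A) ω ∧ ω D = f i) →
      r ≤ C * m ^ a) {A : Place ℂ K → ℚ} (hA : Effective y A) :
    numericalDim y n Δ A ≤ (a : EReal) := by
  obtain ⟨C, hC⟩ := hup A hA
  exact nu_le (C := C) fun m _ hm => (finite_h0 hD (hC m hm)).2

/-- **Sections of the base and very affine fibres**, abstract form. -/
theorem va_main {Δ : Place ℂ K → ℚ} {p r : ℕ} {Kap : ℕ → Prop}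
    (hy : NormalModel y) (hn : Algebra.trdeg ℂ K = n) (hΔ : Effective y Δ)
    (hLC : LogCanonical y n Δ) {F : IntermediateField ℂ K}
    (hd : Algebra.trdeg ℂ F = p)
    (hbase : ∀ s : ℕ, n = p + s → ∀ δ₁ δ₂ : Place ℂ K → ℝ, ∀ lam : ℕ,
      (∀ P ∈ {P | IsPrimeDivisor y P}, δ₁ P + δ₂ P ≤ Δ P) →
      (∀ P ∈ {P | IsPrimeDivisor y P}, (¬ ∀ f ∈ F, f ≠ 0 → P.ord f = 0) → δ₁ P = Δ P) →
      (∀ P ∈ {P | IsPrimeDivisor y P}, 0 ≤ δ₁ P) →
      ∀ m : ℕ, 0 < m → ∀ θ : Fin (lam + 1) → (Fin s → Derivation F K K) → K,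
      (∀ j, FibSec n m {P | IsPrimeDivisor y P} δ₂ F (θ j)) →
      (∃ G, θ 0 G ≠ 0 ∧
        AlgebraicIndependent F (fun i : Fin lam => θ i.succ G / θ 0 G)) →
      KodairaGe n {P | IsPrimeDivisor y P} (fun P => (Δ P : ℝ)) lam ∧
        ∀ κ, Kap κ → KodairaGe n {P | IsPrimeDivisor y P} (fun P => (Δ P : ℝ)) (κ + lam))
    {t : Fin r → K} (ht : ∀ j, t j ≠ 0)
    (hgen : IntermediateField.adjoin ℂ ({x : K | IsAlgebraic F x} ∪ Set.range t) = ⊤)
    (h2 : ∀ P, IsPrimeDivisor y P → (∀ f ∈ F, f ≠ 0 → P.ord f = 0) →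
      (∃ j, P.ord (t j) ≠ 0) → 1 ≤ Δ P) :
    ∃ lam : ℕ, (lam : WithBot ℕ) ≤ kodairaDim y n Δ ∧
      (∀ κ, Kap κ → ((κ + lam : ℕ) : WithBot ℕ) ≤ kodairaDim y n Δ) ∧
      (∀ A, Effective y A → numericalDim y n Δ A ≤ ((p + lam : ℕ) : EReal)) ∧
      (Kap p → kodairaDim y n Δ = ((p + lam : ℕ) : WithBot ℕ) ∧
        ∀ A, Effective y A → Integral y A → numericalDim y n Δ A = ((p + lam : ℕ) : EReal)) := by
  classical
  have hess := hy.ess
  -- the fibres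
  have hgen' : IntermediateField.adjoin ℂ ((acl ℂ (F : Set K) : Set K) ∪ Set.range t) = ⊤ := by
    rw [← top_le_iff, ← hgen, IntermediateField.adjoin_le_iff]
    rintro x (hx | hx)
    · exact IntermediateField.subset_adjoin _ _ (Or.inl ((acl_closed (F : Set K)).mem_of_le
        (fun y hy => subset_acl _ hy) hx))
    · exact IntermediateField.subset_adjoin _ _ (Or.inr hx)
  obtain ⟨e, l, M, J, D, u, H, gs⟩ := exists_gs hn ht hgen'
  obtain ⟨B, hB⟩ : ∃ B : MvPolynomial (Fin l) M → Prop, ∀ g, B g ↔ (Irreducible g ∧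
      ∀ P, IsPrimeDivisor y P → Adic P u g → 0 < Δ P) := ⟨_, fun _ => Iff.rfl⟩
  obtain ⟨M1, l', ρ, x, u', fb⟩ := exists_fb hn gs B
  obtain ⟨μ, c, hc, hbas⟩ := full_basis hn gs fb
  -- the dimensions
  have hFe : Algebra.trdeg F K = e := by
    have h3 := gs.bas.cardinalMk_eq_trdeg
    rw [Cardinal.mk_fin] at h3
    exact h3.symm
  have hne : n = p + e := by
    have h3 := trdeg_add_eq ℂ F (A := K)
    rw [hd, hFe, hn] at h3
    exact_mod_cast h3.symm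
  have hel : e = l' + (ρ + μ) := by
    have h3 := hbas.cardinalMk_eq_trdeg
    rw [hFe, Cardinal.mk_sum, Cardinal.mk_sum, Cardinal.mk_fin, Cardinal.mk_fin, Cardinal.mk_fin,
      Cardinal.lift_natCast, Cardinal.lift_natCast, Cardinal.lift_natCast, ← Nat.cast_add,
      Cardinal.lift_natCast, ← Nat.cast_add] at h3
    exact_mod_cast h3.symm
  -- the upper bound
  obtain ⟨E, hE, hEM, hEu⟩ := exists_adapted hn gs.closed gs.ind gs.top
  have hup : ∀ A, Effective y A → ∃ C : ℕ, ∀ m : ℕ, 1 ≤ m → ∀ (r : ℕ) (f : Fin r → K),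
      LinearIndependent ℂ f → (∀ i, ∃ ω, Y172.IsSection y n m (m • Δ + A) ω ∧ ω E = f i) →
      r ≤ C * m ^ (p + (ρ + μ)) := by
    intro A hA
    refine upper hy hn hΔ hLC gs.ind gs.top fb (fun g hg hBg => ?_) hE hEM hEu (by omega) hA
    rw [hB] at hBg
    push Not at hBg
    obtain ⟨P, hP, hPg, hPΔ⟩ := hBg hg
    exact ⟨P, hP, hPg, hPΔ⟩
  -- the coefficients
  let X : Set (Place ℂ K) := {P | IsPrimeDivisor y P}
  have hX : ∀ P, P ∈ X ↔ IsPrimeDivisor y P := fun _ => Iff.rfl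
  obtain ⟨tr, htr⟩ : ∃ tr : Place ℂ K → Prop, ∀ P, tr P ↔
      ∀ f ∈ F, f ≠ 0 → P.ord f = 0 := ⟨_, fun _ => Iff.rfl⟩
  let δ₁ : Place ℂ K → ℝ := fun P => if tr P then 0 else (Δ P : ℝ)
  let δ₂ : Place ℂ K → ℝ := fun P => if tr P then (Δ P : ℝ) else 0
  have hΔ0 : ∀ P ∈ X, (0 : ℝ) ≤ Δ P := fun P hP => by exact_mod_cast hΔ.1 P hP
  have hδ₁ : ∀ P ∈ X, 0 ≤ δ₁ P := by
    intro P hP
    change 0 ≤ if tr P then 0 else (Δ P : ℝ)
    split_ifs
    · exact le_rfl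
    · exact hΔ0 P hP
  have hδ₂ : ∀ P ∈ X, 0 ≤ δ₂ P := by
    intro P hP
    change 0 ≤ if tr P then (Δ P : ℝ) else 0
    split_ifs
    · exact hΔ0 P hP
    · exact le_rfl
  have hδ : ∀ P ∈ X, δ₁ P + δ₂ P ≤ Δ P := by
    intro P _
    change (if tr P then 0 else (Δ P : ℝ)) + (if tr P then (Δ P : ℝ) else 0) ≤ Δ P
    split_ifs <;> simp
  have hδ₂' : ∀ P, (∀ f ∈ F, f ≠ 0 → P.ord f = 0) → δ₂ P = Δ P := fun P hP =>
    if_pos ((htr P).2 hP)
  -- the lower bound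
  obtain ⟨m, hm, θ, hθ1, hθ2, hθ3, hθ4⟩ := lower gs fb (X := X) (δ := δ₂) hδ₂
    (by
      rintro P hP ⟨hPF, hPt⟩
      rw [hδ₂' P hPF]
      exact_mod_cast h2 P hP hPF hPt)
    (by
      intro g hg
      rw [hB] at hg
      refine ⟨hg.1, fun P hP hPg => ?_⟩
      rw [hδ₂' P fun f hf hf0 => hPg.triv f (gs.le hf) hf0]
      exact_mod_cast hg.2 P hP hPg)
    (fun f hf => finite_ord hy hf) hc (by
      have h3 := hbas.1.comp (Sum.inr : Fin ρ ⊕ Fin μ → Fin l' ⊕ (Fin ρ ⊕ Fin μ))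
        Sum.inr_injective
      exact h3)
  have hGD : ∀ i, ((Y172.liftD (D i) F (gs.dk i)).restrictScalars ℂ) = D i := by
    intro i
    ext f
    rfl
  -- the sections
  have hKG := hbase e hne δ₁ δ₂ (ρ + μ) hδ
    (fun P _ hP => if_neg fun h => hP ((htr P).1 h)) hδ₁ m hm
    (fun b G => θ b fun i => (G i).restrictScalars ℂ)
    (by
      intro b
      refine ⟨pluri_restrict (hθ1 b) _, fun P hP _ G hG => ?_⟩
      exact hθ2 b P hP _ (fun i f hf => by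
        have : (G i) f = 0 := (G i).map_algebraMap (⟨f, hf⟩ : F)
        exact this) (fun i f hf => hG i f hf))
    (by
      refine ⟨fun i => Y172.liftD (D i) F (gs.dk i), ?_, ?_⟩
      · simp only [hGD]
        exact hθ3
      · simp only [hGD]
        exact hθ4)
  have hsec : ∀ {m0 : ℕ} {ω : (Fin n → Derivation ℂ K K) → K},
      Pool.Agent.TH766.MC.PairSec n {P | IsPrimeDivisor y P} (fun P => (Δ P : ℝ)) m0 ω →
      Y172.IsSection y n m0 (m0 • Δ) ω := fun {m0 ω} hω => ⟨hω.1, fun P hP G hG => by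
      rcases hω.2 P hP (hP.divisorial hy hn) G hG with h6 | h6
      · exact Or.inl h6
      · right
        have e1 : (m0 • Δ) P = m0 * Δ P := by rw [Pi.smul_apply, nsmul_eq_mul]
        rw [e1]
        have h7 : ((-(m0 * Δ P) : ℚ) : ℝ) ≤ ((P.ord (ω G) : ℚ) : ℝ) := by
          push_cast
          exact h6
        exact_mod_cast h7⟩
  have hge : ∀ k : ℕ, KodairaGe n {P | IsPrimeDivisor y P} (fun P => (Δ P : ℝ)) k →
      (k : WithBot ℕ) ≤ kodairaDim y n Δ := by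
    rintro k ⟨m0, hm0, ω, hω, E', h4, h5⟩
    exact dims_ge hΔ hE hup hm0 (ω := ω) (fun j => hsec (hω j)) h4 h5
  refine ⟨ρ + μ, hge _ hKG.1, fun κ hκ => hge _ (hKG.2 κ hκ),
    fun A hA => num_le hE hup hA, fun hp => ?_⟩
  obtain ⟨m0, hm0, ω, hω, E', h4, h5⟩ := hKG.2 p hp
  exact dims (k := p + (ρ + μ)) hΔ hE hup hm0 (ω := ω) (fun j => hsec (hω j)) h4 h5

/-- **Very affine fibres over the image of a linear system with powerful members.** -/
theorem lin_va {d k n q c w r : ℕ} {x : Fin (N + 1) → K} {Δ : Place ℂ K → ℚ}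
    (hx : NormalModel x) (hK : Algebra.trdeg ℂ K = w) (hΔ : Effective x Δ)
    (hLC : LogCanonical x w Δ) (hd : 1 ≤ d) (hdk : d + k = n)
    {V : Submodule ℂ K} (hL : Algebra.trdeg ℂ (rf V) = d)
    {φ : Fin q → K} (hφ0 : ∀ i, φ i ≠ 0) (hφ : Submodule.span ℂ (Set.range φ) = V)
    {γ : Fin q → Fin c} (hγ : Dcp n V φ γ) (hc : ∀ γ' : Fin q → Fin (c + 1), ¬ Dcp n V φ γ')
    {R : ℕ} (hR : R + c = n + 3 ∨
      (c = 1 ∧ (∃ τ : Fin (n + 3) → Fin q, ∀ i j, i ≠ j → ∀ t : ℂ, φ (τ i) ≠ t • φ (τ j)) ∧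
        R = n + 1)) {s : ℝ}
    (hs : (R : ℝ) * ((k + 1) * (k + 2)) ≤ 2 * s)
    (h : ∀ P, IsPrimeDivisor x P → ∀ a : ℤ, (∀ f ∈ V, f = 0 ∨ a ≤ P.ord f) →
      (∃ f ∈ V, f ≠ 0 ∧ P.ord f = a) → (∃ i, P.ord (φ i) ≠ a) →
      ∃ i i', γ i' = γ i ∧ s * (1 - Δ P) ≤ ((P.ord (φ i) - P.ord (φ i') : ℤ) : ℝ))
    {t : Fin r → K} (ht : ∀ j, t j ≠ 0)
    (hgen : IntermediateField.adjoin ℂ ({z : K | IsAlgebraic (rf V) z} ∪ Set.range t) = ⊤)
    (h2 : ∀ P, IsPrimeDivisor x P → (∀ f ∈ rf V, f ≠ 0 → P.ord f = 0) →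
      (∃ j, P.ord (t j) ≠ 0) → 1 ≤ Δ P) :
    ∃ lam : ℕ, (lam : WithBot ℕ) ≤ kodairaDim x w Δ ∧
      (∀ A, Effective x A → numericalDim x w Δ A ≤ ((d + lam : ℕ) : EReal)) ∧
      ((R : ℝ) * ((k + 1) * (k + 2)) < 2 * s →
        (∀ κ : ℕ, κ + c = d + 1 → ((κ + lam : ℕ) : WithBot ℕ) ≤ kodairaDim x w Δ) ∧
        (c = 1 → kodairaDim x w Δ = ((d + lam : ℕ) : WithBot ℕ) ∧
          ∀ A, Effective x A → Integral x A →
            numericalDim x w Δ A = ((d + lam : ℕ) : EReal))) := by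
  classical
  have hmem : ∀ i, φ i ∈ V := fun i => by
    rw [← hφ]
    exact Submodule.subset_span ⟨i, rfl⟩
  obtain ⟨lam, h3, h4, h5, h6⟩ := va_main
    (Kap := fun κ => κ + c = d + 1 ∧ (R : ℝ) * ((k + 1) * (k + 2)) < 2 * s) hx hK hΔ hLC hL
    (by
      rintro e rfl δ₁ δ₂ lam hδ hδ1 hδ0 m hm θ hθ hne
      obtain ⟨h7, h8⟩ := lin_fib (k := k) (lam := lam) hd hdk hK hL hφ0 hφ hγ hc hR
        {P | IsPrimeDivisor x P} δ₁ δ₂ (fun P => (Δ P : ℝ)) hδ0 hδ hs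
        (fun P hP _ a ha hb hi => by
          by_cases htriv : ∀ f ∈ rf V, f ≠ 0 → P.ord f = 0
          · exfalso
            obtain ⟨i, hi⟩ := hi
            obtain ⟨f, hf, hf0, hfa⟩ := hb
            apply hi
            have h3 : P.ord (φ i / f) = 0 := htriv _
              (IntermediateField.subset_adjoin ℂ _ ⟨φ i, hmem i, f, hf, rfl⟩)
              (div_ne_zero (hφ0 i) hf0)
            rw [P.ord_div (hφ0 i) hf0, hfa] at h3
            omega
          · rw [hδ1 P hP htriv]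
            exact h P hP a ha hb hi) hm hθ hne
      exact ⟨h7, fun κ hκ => h8 κ hκ.1 hκ.2⟩) ht hgen h2
  refine ⟨lam, h3, h5, fun hlt => ⟨fun κ hκ => h4 κ ⟨hκ, hlt⟩, fun hc1 => ?_⟩⟩
  exact h6 ⟨by omega, hlt⟩

end Pool.Agent.V11322.LF
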